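import Mathlib

/-!
Lucas numbers, squares and twice squares.
-/

set_option autoImplicit false

namespace Pool.Agent.Lib.MP_808c84_nt

/-- the Lucas numbers -/
def luc : ℕ → ℕ
  | 0 => 2
  | 1 => 1
  | n + 2 => luc n + luc (n + 1)

theorem luc_add_two (n : ℕ) : luc (n + 2) = luc n + luc (n + 1) := by rw [luc]

theorem luc_add_fib (n : ℕ) : luc n + Nat.fib n = 2 * Nat.fib (n + 1) := by
  have key : ∀ n : ℕ, luc n + Nat.fib n = 2 * Nat.fib (n + 1) ∧
      luc (n + 1) + Nat.fib (n + 1) = 2 * Nat.fib (n + 2) := by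
    intro n
    induction n with
    | zero => simp [luc]
    | succ n ih =>
      refine ⟨ih.2, ?_⟩
      rw [luc_add_two, Nat.fib_add_two (n := n + 1)]
      have h1 := ih.1
      have h2 := ih.2
      have h3 := Nat.fib_add_two (n := n)
      have h4 : Nat.fib (n + 1 + 1) = Nat.fib (n + 2) := rfl
      omega
  exact (key n).1

theorem luc_int (n : ℕ) : (luc n : ℤ) = 2 * Nat.fib (n + 1) - Nat.fib n := by
  have h := luc_add_fib n
  have : (luc n : ℤ) + Nat.fib n = 2 * Nat.fib (n + 1) := by exact_mod_cast h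
  linarith

theorem luc_succ_int (n : ℕ) : (luc (n + 1) : ℤ) = Nat.fib (n + 1) + 2 * Nat.fib n := by
  rw [luc_int]
  have h : (Nat.fib (n + 1 + 1) : ℤ) = Nat.fib n + Nat.fib (n + 1) := by
    exact_mod_cast Nat.fib_add_two (n := n)
  rw [h]
  ring

theorem cassini (n : ℕ) : (Nat.fib (n + 1) : ℤ) ^ 2 - Nat.fib (n + 1) * Nat.fib n -
    (Nat.fib n : ℤ) ^ 2 = (-1) ^ n := by
  induction n with
  | zero => simp
  | succ n ih =>
    have h : (Nat.fib (n + 1 + 1) : ℤ) = Nat.fib n + Nat.fib (n + 1) := by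
      exact_mod_cast Nat.fib_add_two (n := n)
    rw [h, pow_succ]
    linear_combination -ih

theorem fib_two_mul_int (n : ℕ) :
    (Nat.fib (2 * n) : ℤ) = Nat.fib n * (2 * Nat.fib (n + 1) - Nat.fib n) := by
  have h := Nat.fib_two_mul n
  have h2 : Nat.fib n ≤ 2 * Nat.fib (n + 1) := by
    have := Nat.fib_le_fib_succ (n := n)
    omega
  rw [h]
  push_cast [Nat.cast_sub h2]
  ring

theorem fib_two_mul_add_one_int (n : ℕ) :
    (Nat.fib (2 * n + 1) : ℤ) = (Nat.fib (n + 1) : ℤ) ^ 2 + (Nat.fib n : ℤ) ^ 2 := by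
  have h := Nat.fib_two_mul_add_one n
  exact_mod_cast h

theorem fib_two_mul_eq (n : ℕ) : Nat.fib (2 * n) = Nat.fib n * luc n := by
  have h := fib_two_mul_int n
  rw [← luc_int] at h
  exact_mod_cast h

/-- doubling -/
theorem luc_two_mul (n : ℕ) : (luc (2 * n) : ℤ) + 2 * (-1) ^ n = (luc n : ℤ) ^ 2 := by
  rw [luc_int, luc_int, fib_two_mul_int, fib_two_mul_add_one_int, ← cassini n]
  ring

theorem luc_two_mul_add_one (n : ℕ) :
    (luc (2 * n + 1) : ℤ) + (-1) ^ n = luc n * luc (n + 1) := by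
  rw [luc_succ_int, luc_int n, luc_succ_int n, fib_two_mul_int, fib_two_mul_add_one_int,
    ← cassini n]
  ring

/-- the shift by `2 t`, `t` even -/
theorem luc_shift {t : ℕ} (ht : Even t) (m : ℕ) :
    luc (m + 2 * t) + luc m = luc t * luc (m + t) := by
  have hpow : ((-1 : ℤ)) ^ t = 1 := ht.neg_one_pow
  have key : ∀ m : ℕ, luc (m + 2 * t) + luc m = luc t * luc (m + t) ∧
      luc (m + 1 + 2 * t) + luc (m + 1) = luc t * luc (m + 1 + t) := by
    intro m
    induction m with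
    | zero =>
      constructor
      · have h := luc_two_mul t
        rw [hpow] at h
        have h0 : luc 0 = 2 := rfl
        rw [zero_add, zero_add, h0]
        zify
        linear_combination h
      · have h := luc_two_mul_add_one t
        rw [hpow] at h
        have h0 : luc (0 + 1) = 1 := rfl
        rw [h0, show 0 + 1 + 2 * t = 2 * t + 1 by ring, show 0 + 1 + t = t + 1 by ring]
        zify
        linear_combination h
    | succ m ih =>
      refine ⟨ih.2, ?_⟩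
      rw [show m + 1 + 1 + 2 * t = (m + 2 * t) + 2 by ring, luc_add_two (m + 2 * t),
        show m + 1 + 1 + t = (m + t) + 2 by ring, luc_add_two (m + t),
        show m + 1 + 1 = m + 2 by ring, luc_add_two m]
      have h1 := ih.1
      have h2 := ih.2
      rw [show m + 1 + 2 * t = m + 2 * t + 1 by ring, show m + 1 + t = m + t + 1 by ring] at h2
      rw [mul_add]
      omega
  exact (key m).1

/-- odd multiples of `2 t` -/
theorem luc_shift_odd {t : ℕ} (ht : Even t) (m s : ℕ) (hs : Odd s) :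
    luc t ∣ luc (m + 2 * t * s) + luc m := by
  obtain ⟨r, rfl⟩ := hs
  induction r with
  | zero =>
    rw [show m + 2 * t * (2 * 0 + 1) = m + 2 * t by ring, luc_shift ht m]
    exact dvd_mul_right _ _
  | succ r ih =>
    have h1 := luc_shift ht (m + 2 * t * (2 * r + 1))
    have h2 := luc_shift ht (m + 2 * t * (2 * r + 1) + 2 * t)
    rw [show m + 2 * t * (2 * (r + 1) + 1) = m + 2 * t * (2 * r + 1) + 2 * t + 2 * t by ring]
    have h3 : luc t ∣ luc (m + 2 * t * (2 * r + 1) + 2 * t) + luc (m + 2 * t * (2 * r + 1)) := by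
      rw [h1]; exact dvd_mul_right _ _
    have h4 : luc t ∣ luc (m + 2 * t * (2 * r + 1) + 2 * t + 2 * t) +
        luc (m + 2 * t * (2 * r + 1) + 2 * t) := by
      rw [h2]; exact dvd_mul_right _ _
    zify at ih h3 h4 ⊢
    have h5 := (dvd_sub h4 h3)
    have h6 := dvd_add h5 ih
    have e : ((luc (m + 2 * t * (2 * r + 1) + 2 * t + 2 * t) : ℤ) +
        luc (m + 2 * t * (2 * r + 1) + 2 * t)) -
        ((luc (m + 2 * t * (2 * r + 1) + 2 * t) : ℤ) + luc (m + 2 * t * (2 * r + 1))) +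
        ((luc (m + 2 * t * (2 * r + 1)) : ℤ) + luc m) =
        (luc (m + 2 * t * (2 * r + 1) + 2 * t + 2 * t) : ℤ) + luc m := by ring
    rw [e] at h6
    exact h6

theorem luc_twelve (n : ℕ) : luc (n + 12) = 89 * luc n + 144 * luc (n + 1) := by
  simp only [luc_add_two, show n + 12 = (n + 10) + 2 by rfl, show n + 11 = n + 9 + 2 by rfl,
    show n + 10 = n + 8 + 2 by rfl, show n + 9 = n + 7 + 2 by rfl, show n + 8 = n + 6 + 2 by rfl,
    show n + 7 = n + 5 + 2 by rfl, show n + 6 = n + 4 + 2 by rfl, show n + 5 = n + 3 + 2 by rfl,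
    show n + 4 = n + 2 + 2 by rfl, show n + 3 = n + 1 + 2 by rfl]
  ring

theorem fib_twelve (n : ℕ) : Nat.fib (n + 12) = 89 * Nat.fib n + 144 * Nat.fib (n + 1) := by
  rw [show n + 12 = n + 11 + 1 by rfl, Nat.fib_add]
  have h1 : Nat.fib 11 = 89 := by decide
  have h2 : Nat.fib (11 + 1) = 144 := by decide
  rw [h1, h2]
  ring

theorem luc_mod (q r : ℕ) : luc (12 * q + r) % 8 = luc r % 8 := by
  induction q with
  | zero => simp
  | succ q ih =>
    rw [show 12 * (q + 1) + r = 12 * q + r + 12 by ring, luc_twelve]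
    omega

theorem fib_mod (q r : ℕ) : Nat.fib (12 * q + r) % 8 = Nat.fib r % 8 := by
  induction q with
  | zero => simp
  | succ q ih =>
    rw [show 12 * (q + 1) + r = 12 * q + r + 12 by ring, fib_twelve]
    omega

theorem luc_mod3 (q r : ℕ) : luc (8 * q + r) % 3 = luc r % 3 := by
  have h8 : ∀ n, luc (n + 8) = 13 * luc n + 21 * luc (n + 1) := by
    intro n
    simp only [luc_add_two, show n + 8 = n + 6 + 2 by rfl,
      show n + 7 = n + 5 + 2 by rfl, show n + 6 = n + 4 + 2 by rfl, show n + 5 = n + 3 + 2 by rfl,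
      show n + 4 = n + 2 + 2 by rfl, show n + 3 = n + 1 + 2 by rfl]
    ring
  induction q with
  | zero => simp
  | succ q ih =>
    rw [show 8 * (q + 1) + r = 8 * q + r + 8 by ring, h8]
    omega

/-- `luc t = 3 mod 4` for `t` even, not divisible by 3 -/
theorem luc_mod4 {t : ℕ} (ht : Even t) (h3 : ¬ 3 ∣ t) : luc t % 4 = 3 := by
  obtain ⟨s, hs⟩ := ht
  have h : t = 12 * (t / 12) + t % 12 := by omega
  have h1 := luc_mod (t / 12) (t % 12)
  rw [← h] at h1
  have h2 : t % 12 = 2 ∨ t % 12 = 4 ∨ t % 12 = 8 ∨ t % 12 = 10 := by omega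
  have e2 : luc 2 = 3 := by decide
  have e4 : luc 4 = 7 := by decide
  have e8 : luc 8 = 47 := by decide
  have e10 : luc 10 = 123 := by decide
  rcases h2 with h2 | h2 | h2 | h2 <;> rw [h2] at h1
  · rw [e2] at h1; omega
  · rw [e4] at h1; omega
  · rw [e8] at h1; omega
  · rw [e10] at h1; omega

/-- `-1` is not a square modulo a number `= 3 mod 4` -/
theorem not_dvd_sq_add_one {n w : ℕ} (hn : n % 4 = 3) : ¬ n ∣ w ^ 2 + 1 := by
  intro h
  have h1 : IsSquare (-1 : ZMod n) := by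
    refine ⟨(w : ZMod n), ?_⟩
    have h2 : ((w ^ 2 + 1 : ℕ) : ZMod n) = 0 := (ZMod.natCast_eq_zero_iff _ _).mpr h
    push_cast at h2
    linear_combination -h2
  obtain ⟨x, y, hxy⟩ := Nat.eq_sq_add_sq_of_isSquare_mod_neg_one h1
  have hx : x ^ 2 % 4 = 0 ∨ x ^ 2 % 4 = 1 := by
    rcases Nat.even_or_odd x with ⟨r, hr⟩ | ⟨r, hr⟩
    · left; rw [hr]; ring_nf; omega
    · right; rw [hr]; ring_nf; omega
  have hy : y ^ 2 % 4 = 0 ∨ y ^ 2 % 4 = 1 := by
    rcases Nat.even_or_odd y with ⟨r, hr⟩ | ⟨r, hr⟩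
    · left; rw [hr]; ring_nf; omega
    · right; rw [hr]; ring_nf; omega
  omega

/-- every `n` divisible by 4 is `2 t s` with `t` even, prime to 3, `s` odd -/
theorem split_four {n : ℕ} (hn : n ≠ 0) (h4 : 4 ∣ n) :
    ∃ t s : ℕ, n = 2 * t * s ∧ Even t ∧ ¬ 3 ∣ t ∧ Odd s := by
  obtain ⟨r, m, hm, hrm⟩ := Nat.exists_eq_pow_mul_and_not_dvd hn 3 (by norm_num)
  have hodd : Odd (3 ^ r) := Odd.pow (by decide)
  have h4m : 4 ∣ m := by
    have hc : Nat.Coprime 4 (3 ^ r) := Nat.Coprime.pow_right r (by norm_num)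
    rw [hrm] at h4
    exact hc.dvd_of_dvd_mul_left h4
  obtain ⟨q, rfl⟩ := h4m
  refine ⟨2 * q, 3 ^ r, ?_, ⟨q, by ring⟩, ?_, hodd⟩
  · rw [hrm]; ring
  · intro h
    apply hm
    obtain ⟨z, hz⟩ := h
    exact ⟨2 * z, by omega⟩

/-- Cohn -/
theorem luc_four_ne_two_sq {n : ℕ} (hn : n ≠ 0) (h4 : 4 ∣ n) (w : ℕ) : luc n ≠ 2 * w ^ 2 := by
  intro h
  obtain ⟨t, s, hts, ht, h3, hs⟩ := split_four hn h4
  have h1 := luc_shift_odd ht 0 s hs
  rw [zero_add, ← hts, h] at h1
  have h0 : luc 0 = 2 := rfl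
  rw [h0] at h1
  have h5 : luc t % 4 = 3 := luc_mod4 ht h3
  have h6 : luc t ∣ w ^ 2 + 1 := by
    have hc : Nat.Coprime (luc t) 2 := by
      rw [Nat.coprime_two_right]
      rw [Nat.odd_iff]
      omega
    apply hc.dvd_of_dvd_mul_left
    rw [mul_add, mul_one]
    exact h1
  exact not_dvd_sq_add_one h5 h6

theorem luc_one_mod_four_ne_sq {n : ℕ} (hn : n ≠ 0) (h4 : 4 ∣ n) (w : ℕ) :
    luc (1 + n) ≠ w ^ 2 := by
  intro h
  obtain ⟨t, s, hts, ht, h3, hs⟩ := split_four hn h4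
  have h1 := luc_shift_odd ht 1 s hs
  rw [← hts, h] at h1
  have h0 : luc 1 = 1 := rfl
  rw [h0] at h1
  exact not_dvd_sq_add_one (luc_mod4 ht h3) h1

/-- Lucas numbers of even index are not squares -/
theorem luc_even_ne_sq (n w : ℕ) : luc (2 * n) ≠ w ^ 2 := by
  intro h
  have h1 := luc_two_mul n
  rw [h] at h1
  push_cast at h1
  have hx : ∀ x : ℤ, x ^ 2 % 4 = 0 ∨ x ^ 2 % 4 = 1 := by
    intro x
    rcases Int.even_or_odd x with ⟨r, hr⟩ | ⟨r, hr⟩
    · left; rw [hr]; ring_nf; omega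
    · right; rw [hr]; ring_nf; omega
  have h2 := hx (luc n)
  have h3 := hx w
  rcases Nat.even_or_odd n with hn | hn
  · rw [hn.neg_one_pow] at h1
    omega
  · rw [hn.neg_one_pow] at h1
    omega

theorem not_three_dvd_luc_four {n : ℕ} (h4 : 4 ∣ n) : ¬ 3 ∣ luc n := by
  obtain ⟨q, rfl⟩ := h4
  have h : 4 * q = 8 * (q / 2) + 4 * (q % 2) := by omega
  have h1 := luc_mod3 (q / 2) (4 * (q % 2))
  rw [← h] at h1
  have h2 : q % 2 = 0 ∨ q % 2 = 1 := by omega
  have e0 : luc (4 * 0) = 2 := by decide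
  have e4 : luc (4 * 1) = 7 := by decide
  intro h3
  rcases h2 with h2 | h2 <;> rw [h2] at h1
  · rw [e0] at h1; omega
  · rw [e4] at h1; omega

end Pool.Agent.Lib.MP_808c84_nt
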