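import Mathlib
import Pool.Agent.Lib.MP_808c84_nt.Luc

/-!
The classes which are not squares.
-/

set_option autoImplicit false

namespace Pool.Agent.Lib.MP_808c84_nt

theorem sq_mod8 (w : ℕ) : w ^ 2 % 8 = 0 ∨ w ^ 2 % 8 = 1 ∨ w ^ 2 % 8 = 4 := by
  have h : w = 8 * (w / 8) + w % 8 := by omega
  have h2 : w ^ 2 % 8 = (w % 8) ^ 2 % 8 := by rw [Nat.pow_mod]
  have h3 : w % 8 < 8 := Nat.mod_lt _ (by norm_num)
  rw [h2]
  interval_cases w % 8 <;> simp

theorem sq_right {m n : ℕ} (hc : Nat.Coprime m n) (h : IsSquare (m * n)) : ∃ w, n = w ^ 2 := by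
  obtain ⟨z, hz⟩ := h
  have h1 : n * m = z ^ 2 := by rw [pow_two, ← hz, mul_comm]
  have h2 : IsUnit (gcd n m) := by
    rw [Nat.isUnit_iff]
    exact hc.symm
  exact exists_eq_pow_of_mul_eq_pow h2 h1

theorem sq_or_two_sq {m n : ℕ} (h : IsSquare (m * n)) (hg : Nat.gcd m n ∣ 2) :
    ∃ w, n = w ^ 2 ∨ n = 2 * w ^ 2 := by
  rcases (Nat.dvd_prime Nat.prime_two).mp hg with h1 | h2
  · obtain ⟨w, hw⟩ := sq_right h1 h
    exact ⟨w, Or.inl hw⟩
  · obtain ⟨m', n', hc, hm, hn⟩ := Nat.exists_coprime m n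
    rw [h2] at hm hn
    obtain ⟨z, hz⟩ := h
    have h3 : Even (z * z) := by
      rw [← hz, hm]
      exact ⟨m' * n, by ring⟩
    have h4 : Even z := by
      rcases Nat.even_mul.mp h3 with h | h <;> exact h
    obtain ⟨y, hy⟩ := h4
    have h5 : m' * n' = y * y := by
      have : 4 * (m' * n') = 4 * (y * y) := by
        calc 4 * (m' * n') = m * n := by rw [hm, hn]; ring
          _ = z * z := hz
          _ = 4 * (y * y) := by rw [hy]; ring
      omega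
    obtain ⟨w, hw⟩ := sq_right hc ⟨y, h5⟩
    exact ⟨w, Or.inr (by rw [hn, hw]; ring)⟩

section

variable {k : ℕ}

theorem rel (hk : Odd k) : (Nat.fib (k + 1) : ℤ) ^ 2 - Nat.fib (k + 1) * Nat.fib k -
    (Nat.fib k : ℤ) ^ 2 = -1 := by
  rw [cassini, hk.neg_one_pow]

theorem lam_int : (luc (2 * k + 2) : ℤ) = 2 * (Nat.fib k : ℤ) ^ 2 + 3 * (Nat.fib (k + 1) : ℤ) ^ 2 +
    2 * Nat.fib k * Nat.fib (k + 1) := by
  rw [show 2 * k + 2 = 2 * k + 1 + 1 by ring, luc_succ_int,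
    show 2 * k + 1 + 1 = 2 * (k + 1) by ring, fib_two_mul_int, fib_two_mul_add_one_int]
  have h : (Nat.fib (k + 1 + 1) : ℤ) = Nat.fib k + Nat.fib (k + 1) := by
    exact_mod_cast Nat.fib_add_two (n := k)
  rw [h]
  ring

theorem coprime_v : Nat.Coprime (Nat.fib (2 * k + 3)) (luc (2 * k + 2)) := by
  have h := luc_add_fib (2 * k + 2)
  rw [show 2 * k + 2 + 1 = 2 * k + 3 by ring] at h
  have hc : Nat.Coprime (Nat.fib (2 * k + 2)) (Nat.fib (2 * k + 3)) := Nat.fib_coprime_fib_succ _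
  rw [Nat.coprime_iff_gcd_eq_one] at hc ⊢
  set d := Nat.gcd (Nat.fib (2 * k + 3)) (luc (2 * k + 2)) with hd
  have h1 : d ∣ Nat.fib (2 * k + 3) := Nat.gcd_dvd_left _ _
  have h2 : d ∣ luc (2 * k + 2) := Nat.gcd_dvd_right _ _
  have h3 : d ∣ Nat.fib (2 * k + 2) := by
    rw [← Nat.dvd_add_right h2, h]
    exact h1.mul_left 2
  have h4 := Nat.dvd_gcd h3 h1
  rw [hc] at h4
  exact Nat.dvd_one.mp h4

theorem gcd_b : Nat.gcd (Nat.fib (2 * k + 2)) (luc (2 * k + 2)) ∣ 2 := by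
  have h := luc_add_fib (2 * k + 2)
  rw [show 2 * k + 2 + 1 = 2 * k + 3 by ring] at h
  have hc : Nat.Coprime (Nat.fib (2 * k + 2)) (Nat.fib (2 * k + 3)) := Nat.fib_coprime_fib_succ _
  set d := Nat.gcd (Nat.fib (2 * k + 2)) (luc (2 * k + 2)) with hd
  have h1 : d ∣ Nat.fib (2 * k + 2) := Nat.gcd_dvd_left _ _
  have h2 : d ∣ luc (2 * k + 2) := Nat.gcd_dvd_right _ _
  have h3 : d ∣ 2 * Nat.fib (2 * k + 3) := by
    rw [← h]
    exact dvd_add h2 h1
  have h4 : Nat.Coprime d (Nat.fib (2 * k + 3)) := Nat.Coprime.coprime_dvd_left h1 hc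
  exact h4.dvd_of_dvd_mul_right h3

theorem coprime_three (hk : Odd k) : Nat.Coprime 3 (luc (2 * k + 2)) := by
  rw [Nat.Prime.coprime_iff_not_dvd Nat.prime_three]
  apply not_three_dvd_luc_four
  obtain ⟨j, rfl⟩ := hk
  exact ⟨j + 1, by ring⟩

theorem coprime_luc (hk : Odd k) : Nat.Coprime (luc k) (luc (2 * k + 2)) := by
  have hr := rel hk
  have hl := lam_int (k := k)
  have hlk := luc_int k
  have h3 := coprime_three hk
  rw [Nat.coprime_iff_gcd_eq_one] at h3 ⊢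
  set d := Nat.gcd (luc k) (luc (2 * k + 2)) with hd
  have h1 : d ∣ luc k := Nat.gcd_dvd_left _ _
  have h2 : d ∣ luc (2 * k + 2) := Nat.gcd_dvd_right _ _
  have e : (luc (2 * k + 2) : ℤ) = 3 + luc k * (5 * Nat.fib (k + 1) - luc k) := by
    rw [hl, hlk]
    linear_combination (-3 : ℤ) * hr
  have h4 : (d : ℤ) ∣ 3 := by
    have h5 : (3 : ℤ) = luc (2 * k + 2) - luc k * (5 * Nat.fib (k + 1) - luc k) := by
      rw [e]; ring
    rw [h5]
    apply dvd_sub
    · exact_mod_cast h2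
    · apply Dvd.dvd.mul_right
      exact_mod_cast h1
  have h6 : d ∣ 3 := by exact_mod_cast h4
  have h7 := Nat.dvd_gcd h6 h2
  rw [h3] at h7
  exact Nat.dvd_one.mp h7

theorem coprime_fib (hk : Odd k) : Nat.Coprime (Nat.fib k) (luc (2 * k + 2)) := by
  have hr := rel hk
  have hl := lam_int (k := k)
  have h3 := coprime_three hk
  rw [Nat.coprime_iff_gcd_eq_one] at h3 ⊢
  set d := Nat.gcd (Nat.fib k) (luc (2 * k + 2)) with hd
  have h1 : d ∣ Nat.fib k := Nat.gcd_dvd_left _ _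
  have h2 : d ∣ luc (2 * k + 2) := Nat.gcd_dvd_right _ _
  have h4 : (d : ℤ) ∣ 3 := by
    have h5 : (3 : ℤ) = Nat.fib k * (5 * (Nat.fib k + Nat.fib (k + 1))) - luc (2 * k + 2) := by
      rw [hl]
      linear_combination (3 : ℤ) * hr
    rw [h5]
    apply dvd_sub
    · apply Dvd.dvd.mul_right
      exact_mod_cast h1
    · exact_mod_cast h2
  have h6 : d ∣ 3 := by exact_mod_cast h4
  have h7 := Nat.dvd_gcd h6 h2
  rw [h3] at h7
  exact Nat.dvd_one.mp h7

theorem gcd_luc_succ (hk : Odd k) : Nat.gcd (luc (k + 1)) (luc (2 * k + 2)) ∣ 2 := by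
  have h := luc_two_mul (k + 1)
  have hpow : ((-1 : ℤ)) ^ (k + 1) = 1 := (Even.neg_one_pow (by
    rw [Nat.even_add_one, Nat.not_even_iff_odd]; exact hk))
  rw [hpow, show 2 * (k + 1) = 2 * k + 2 by ring] at h
  set d := Nat.gcd (luc (k + 1)) (luc (2 * k + 2)) with hd
  have h1 : d ∣ luc (k + 1) := Nat.gcd_dvd_left _ _
  have h2 : d ∣ luc (2 * k + 2) := Nat.gcd_dvd_right _ _
  have h4 : (d : ℤ) ∣ 2 := by
    have h5 : (2 : ℤ) = (luc (k + 1) : ℤ) ^ 2 - luc (2 * k + 2) := by linarith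
    rw [h5]
    apply dvd_sub
    · apply dvd_pow _ (by norm_num)
      exact_mod_cast h1
    · exact_mod_cast h2
  exact_mod_cast h4

theorem gcd_fib_succ (hk : Odd k) : Nat.gcd (Nat.fib (k + 1)) (luc (2 * k + 2)) ∣ 2 := by
  have hr := rel hk
  have hl := lam_int (k := k)
  set d := Nat.gcd (Nat.fib (k + 1)) (luc (2 * k + 2)) with hd
  have h1 : d ∣ Nat.fib (k + 1) := Nat.gcd_dvd_left _ _
  have h2 : d ∣ luc (2 * k + 2) := Nat.gcd_dvd_right _ _
  have h4 : (d : ℤ) ∣ 2 := by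
    have h5 : (2 : ℤ) = luc (2 * k + 2) - Nat.fib (k + 1) * (5 * Nat.fib (k + 1)) := by
      rw [hl]
      linear_combination (2 : ℤ) * hr
    rw [h5]
    apply dvd_sub
    · exact_mod_cast h2
    · apply Dvd.dvd.mul_right
      exact_mod_cast h1
  exact_mod_cast h4

theorem lam_not (hk : Odd k) (w : ℕ) (h : luc (2 * k + 2) = w ^ 2 ∨ luc (2 * k + 2) = 2 * w ^ 2) :
    False := by
  rcases h with h | h
  · rw [show 2 * k + 2 = 2 * (k + 1) by ring] at h
    exact luc_even_ne_sq (k + 1) w h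
  · refine luc_four_ne_two_sq (by omega) ?_ w h
    obtain ⟨j, rfl⟩ := hk
    exact ⟨j + 1, by ring⟩

theorem lam_not' (hk : Odd k) {m : ℕ} (hg : Nat.gcd m (luc (2 * k + 2)) ∣ 2) :
    ¬ IsSquare (m * luc (2 * k + 2)) := by
  intro h
  obtain ⟨w, hw⟩ := sq_or_two_sq h hg
  exact lam_not hk w hw

theorem C1 (hk : Odd k) : ¬ IsSquare (Nat.fib (2 * k) * Nat.fib (2 * k + 2)) := by
  intro h
  have hc : Nat.Coprime (Nat.fib (2 * k)) (Nat.fib (2 * k + 2)) := by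
    rw [Nat.coprime_iff_gcd_eq_one, ← Nat.fib_gcd]
    have : Nat.gcd (2 * k) (2 * k + 2) = 2 := by
      rw [Nat.gcd_self_add_right]
      exact Nat.gcd_eq_right (dvd_mul_right _ _)
    rw [this]
    rfl
  obtain ⟨w, hw⟩ := sq_right hc h
  obtain ⟨z, hz⟩ := sq_right hc.symm (by rwa [mul_comm])
  have h8 := sq_mod8 w
  have h8' := sq_mod8 z
  rw [← hw] at h8
  rw [← hz] at h8'
  obtain ⟨j, rfl⟩ := hk
  have e1 : 2 * (2 * j + 1) = 12 * (j / 3) + (4 * (j % 3) + 2) := by omega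
  have e2 : 2 * (2 * j + 1) + 2 = 12 * (j / 3) + (4 * (j % 3) + 4) := by omega
  have f1 := fib_mod (j / 3) (4 * (j % 3) + 2)
  have f2 := fib_mod (j / 3) (4 * (j % 3) + 4)
  rw [← e1] at f1
  rw [← e2] at f2
  have h3 : j % 3 = 0 ∨ j % 3 = 1 ∨ j % 3 = 2 := by omega
  rcases h3 with h3 | h3 | h3 <;> rw [h3] at f1 f2
  · have g2 : Nat.fib (4 * 0 + 4) = 3 := by decide
    rw [g2] at f2
    omega
  · have g2 : Nat.fib (4 * 1 + 4) = 21 := by decide
    rw [g2] at f2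
    omega
  · have g1 : Nat.fib (4 * 2 + 2) = 55 := by decide
    rw [g1] at f1
    omega

theorem C2 (hk : Odd k) : ¬ IsSquare (Nat.fib (2 * k + 2) * luc (2 * k + 2)) :=
  lam_not' hk gcd_b

theorem C3 (hk : Odd k) : ¬ IsSquare (Nat.fib (2 * k + 3) * luc (2 * k + 2)) := by
  apply lam_not' hk
  rw [(Nat.coprime_iff_gcd_eq_one.mp coprime_v)]
  norm_num

theorem C4 (hk : Odd k) :
    ¬ IsSquare (Nat.fib (k + 1) * luc k * Nat.fib (2 * k + 3) * luc (2 * k + 2)) := by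
  apply lam_not' hk
  rw [Nat.Coprime.gcd_mul_right_cancel _ coprime_v,
    Nat.Coprime.gcd_mul_right_cancel _ (coprime_luc hk)]
  exact gcd_fib_succ hk

theorem C5 (hk : Odd k) :
    ¬ IsSquare (luc (k + 1) * Nat.fib k * Nat.fib (2 * k + 3) * luc (2 * k + 2)) := by
  apply lam_not' hk
  rw [Nat.Coprime.gcd_mul_right_cancel _ coprime_v,
    Nat.Coprime.gcd_mul_right_cancel _ (coprime_fib hk)]
  exact gcd_luc_succ hk

theorem C6 (hk : Odd k) : ¬ IsSquare (Nat.fib k * luc (k + 1)) := by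
  intro h
  have hc : Nat.Coprime (Nat.fib k) (luc (k + 1)) := by
    have h1 := luc_succ_int k
    have h2 : luc (k + 1) = Nat.fib (k + 1) + Nat.fib k * 2 := by
      zify
      linarith
    rw [h2, Nat.coprime_add_mul_left_right]
    exact Nat.fib_coprime_fib_succ k
  obtain ⟨w, hw⟩ := sq_right hc h
  obtain ⟨j, rfl⟩ := hk
  rw [show 2 * j + 1 + 1 = 2 * (j + 1) by ring] at hw
  exact luc_even_ne_sq (j + 1) w hw

theorem C7 (hk : Odd k) (h3 : 3 ≤ k) : ¬ IsSquare (luc k * Nat.fib (k + 1)) := by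
  intro h
  have hc : Nat.Coprime (luc k) (Nat.fib (k + 1)) := by
    have h1 := luc_add_fib k
    have h2 : Nat.Coprime (Nat.fib k) (Nat.fib (k + 1)) := Nat.fib_coprime_fib_succ k
    rw [Nat.coprime_iff_gcd_eq_one] at h2 ⊢
    set d := Nat.gcd (luc k) (Nat.fib (k + 1)) with hd
    have g1 : d ∣ luc k := Nat.gcd_dvd_left _ _
    have g2 : d ∣ Nat.fib (k + 1) := Nat.gcd_dvd_right _ _
    have g3 : d ∣ Nat.fib k := by
      rw [← Nat.dvd_add_right g1, h1]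
      exact g2.mul_left 2
    have g4 := Nat.dvd_gcd g3 g2
    rw [h2] at g4
    exact Nat.dvd_one.mp g4
  obtain ⟨w, hw⟩ := sq_right hc h
  obtain ⟨z, hz⟩ := sq_right hc.symm (by rwa [mul_comm])
  have h8 := sq_mod8 w
  have h8' := sq_mod8 z
  rw [← hw] at h8
  rw [← hz] at h8'
  have hk2 : k % 2 = 1 := Nat.odd_iff.mp hk
  have e1 : k = 12 * (k / 12) + k % 12 := by omega
  have e2 : k + 1 = 12 * (k / 12) + (k % 12 + 1) := by omega
  have f1 := luc_mod (k / 12) (k % 12)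
  have f2 := fib_mod (k / 12) (k % 12 + 1)
  rw [← e1] at f1
  rw [← e2] at f2
  have hcase : k % 12 = 1 ∨ k % 12 = 3 ∨ k % 12 = 5 ∨ k % 12 = 7 ∨ k % 12 = 9 ∨ k % 12 = 11 := by
    omega
  rcases hcase with hc1 | hc1 | hc1 | hc1 | hc1 | hc1 <;> rw [hc1] at f1 f2
  · obtain ⟨n, hn⟩ : ∃ n, k = 1 + n := ⟨k - 1, by omega⟩
    rw [hn] at hz
    exact luc_one_mod_four_ne_sq (by omega) (by omega) z hz
  · have g2 : Nat.fib (3 + 1) = 3 := by decide
    rw [g2] at f2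
    omega
  · have g1 : luc 5 = 11 := by decide
    rw [g1] at f1
    omega
  · have g1 : luc 7 = 29 := by decide
    rw [g1] at f1
    omega
  · have g2 : Nat.fib (9 + 1) = 55 := by decide
    rw [g2] at f2
    omega
  · have g1 : luc 11 = 199 := by decide
    rw [g1] at f1
    omega

end

end Pool.Agent.Lib.MP_808c84_nt
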