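import Mathlib

/-!
Two-descent on `y² = (x + e)(x + f)(x + g)` over `ℚ`: the class of `x + e` modulo squares is
additive.
-/

set_option autoImplicit false

open WeierstrassCurve

namespace Pool.Agent.Lib.MP_808c84_nt

/-- `W` is the curve `y² = (x + e)(x + f)(x + g)` -/
structure IsForm (W : WeierstrassCurve.Affine ℚ) (e f g : ℚ) : Prop where
  a1 : W.a₁ = 0
  a3 : W.a₃ = 0
  a2 : W.a₂ = e + f + g
  a4 : W.a₄ = e * f + e * g + f * g
  a6 : W.a₆ = e * f * g

variable {W : WeierstrassCurve.Affine ℚ} {e f g : ℚ}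

/-- the representative of the class of `x + e` -/
def dd (e f g : ℚ) : W.Point → ℚ
  | .zero => 1
  | .some x _ _ => if x + e = 0 then (f - e) * (g - e) else x + e

theorem dd_zero : dd e f g (0 : W.Point) = 1 := rfl

theorem dd_some {x y : ℚ} (h : W.Nonsingular x y) :
    dd e f g (.some x y h : W.Point) = if x + e = 0 then (f - e) * (g - e) else x + e := rfl

theorem IsForm.eq_iff (h : IsForm W e f g) (x y : ℚ) :
    W.Equation x y ↔ y ^ 2 = (x + e) * (x + f) * (x + g) := by
  rw [WeierstrassCurve.Affine.equation_iff, h.a1, h.a2, h.a3, h.a4, h.a6]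
  constructor <;> intro h1 <;> linear_combination h1

theorem IsForm.negY (h : IsForm W e f g) (x y : ℚ) : W.negY x y = -y := by
  rw [WeierstrassCurve.Affine.negY, h.a1, h.a3]
  ring

theorem dd_ne (hef : e ≠ f) (heg : e ≠ g) (P : W.Point) : dd e f g P ≠ 0 := by
  rcases P with _ | ⟨x, y, hP⟩
  · exact one_ne_zero
  · change (if x + e = 0 then (f - e) * (g - e) else x + e) ≠ 0
    split_ifs with h1
    · exact mul_ne_zero (sub_ne_zero.mpr hef.symm) (sub_ne_zero.mpr heg.symm)
    · exact h1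

theorem line_id (h : IsForm W e f g) {x₁ y₁ x₂ y₂ : ℚ} (h₁ : W.Equation x₁ y₁)
    (h₂ : W.Equation x₂ y₂) (hxy : ¬(x₁ = x₂ ∧ y₁ = W.negY x₂ y₂)) (X : ℚ) :
    (X + e) * (X + f) * (X + g) - (y₁ + W.slope x₁ x₂ y₁ y₂ * (X - x₁)) ^ 2 =
      (X - x₁) * (X - x₂) * (X - W.addX x₁ x₂ (W.slope x₁ x₂ y₁ y₂)) := by
  have h1 := congrArg (Polynomial.eval X)
    (WeierstrassCurve.Affine.addPolynomial_slope h₁ h₂ hxy)
  rw [WeierstrassCurve.Affine.addPolynomial_eq] at h1
  simp only [Cubic.toPoly, Polynomial.eval_neg, Polynomial.eval_add, Polynomial.eval_mul,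
    Polynomial.eval_pow, Polynomial.eval_X, Polynomial.eval_C, Polynomial.eval_sub,
    h.a1, h.a2, h.a3, h.a4, h.a6] at h1
  linear_combination -h1

theorem neg_dd (P : W.Point) : dd e f g (-P) = dd e f g P := by
  rcases P with _ | ⟨x, y, hP⟩
  · rfl
  · rfl

theorem dd_add (h : IsForm W e f g) (P Q : W.Point) :
    IsSquare (dd e f g P * dd e f g Q * dd e f g (P + Q)) := by
  rcases P with _ | ⟨x₁, y₁, hP⟩
  · change IsSquare (1 * dd e f g Q * dd e f g (0 + Q))
    rw [zero_add, one_mul]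
    exact ⟨_, rfl⟩
  rcases Q with _ | ⟨x₂, y₂, hQ⟩
  · change IsSquare (_ * 1 * dd e f g (_ + 0))
    rw [add_zero, mul_one]
    exact ⟨_, rfl⟩
  by_cases hxy : x₁ = x₂ ∧ y₁ = W.negY x₂ y₂
  · rw [WeierstrassCurve.Affine.Point.add_of_Y_eq hxy.1 hxy.2, dd_zero, mul_one, dd_some, dd_some,
      hxy.1]
    exact ⟨_, rfl⟩
  · rw [WeierstrassCurve.Affine.Point.add_some hxy, dd_some, dd_some, dd_some]
    have hl := line_id h hP.1 hQ.1 hxy
    set l := W.slope x₁ x₂ y₁ y₂ with hldef
    set x₃ := W.addX x₁ x₂ l with hx3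
    have hy1 : y₁ ^ 2 = (x₁ + e) * (x₁ + f) * (x₁ + g) := (h.eq_iff _ _).mp hP.1
    have h0 := hl (-e)
    -- the value of the line at `-e`
    have key : ∀ t : ℚ, t + e = 0 → ∀ u v : ℚ, (∀ X : ℚ, (X + e) * (X + f) * (X + g) -
        (y₁ + l * (X - x₁)) ^ 2 = (X - t) * (X - u) * (X - v)) →
        (f - e) * (g - e) = (u + e) * (v + e) := by
      intro t ht u v hX
      have ht' : t = -e := by linarith
      subst ht'
      have h1 := hX (-e)
      have h2 : y₁ + l * (-e - x₁) = 0 := by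
        have : (y₁ + l * (-e - x₁)) ^ 2 = 0 := by linear_combination -h1
        exact pow_eq_zero_iff (two_ne_zero) |>.mp this
      have h3 : ∀ s : ℚ, s ≠ 0 → (s - e + f) * (s - e + g) - l ^ 2 * s =
          (s - e - u) * (s - e - v) := by
        intro s hs
        have h4 := hX (s - e)
        have h5 : y₁ + l * (s - e - x₁) = l * s := by linear_combination h2
        rw [h5] at h4
        apply mul_left_cancel₀ hs
        linear_combination h4
      have a1 := h3 1 (by norm_num)
      have a2 := h3 (-1) (by norm_num)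
      have a3 := h3 2 (by norm_num)
      have a4 := h3 (-2) (by norm_num)
      linear_combination (4 * (a1 + a2) - (a3 + a4)) / 6
    by_cases c1 : x₁ + e = 0
    · have k1 := key x₁ c1 x₂ x₃ (fun X => by rw [hl X])
      have hne : x₂ + e ≠ 0 ∧ x₃ + e ≠ 0 ∨ (f - e) * (g - e) = 0 := by
        by_cases c2 : x₂ + e = 0
        · right; rw [k1, c2, zero_mul]
        · by_cases c3 : x₃ + e = 0
          · right; rw [k1, c3, mul_zero]
          · left; exact ⟨c2, c3⟩
      rcases hne with ⟨c2, c3⟩ | h00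
      · rw [if_pos c1, if_neg c2, if_neg c3, k1]
        exact ⟨(x₂ + e) * (x₃ + e), by ring⟩
      · rw [if_pos c1, h00, zero_mul, zero_mul]
        exact ⟨0, by ring⟩
    · by_cases c2 : x₂ + e = 0
      · have k1 := key x₂ c2 x₁ x₃ (fun X => by rw [hl X]; ring)
        by_cases c3 : x₃ + e = 0
        · rw [if_neg c1, if_pos c2, if_pos c3]
          rw [c3, mul_zero] at k1
          rw [k1]
          exact ⟨0, by ring⟩
        · rw [if_neg c1, if_pos c2, if_neg c3, k1]
          exact ⟨(x₁ + e) * (x₃ + e), by ring⟩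
      · by_cases c3 : x₃ + e = 0
        · have k1 := key x₃ c3 x₁ x₂ (fun X => by rw [hl X]; ring)
          rw [if_neg c1, if_neg c2, if_pos c3, k1]
          exact ⟨(x₁ + e) * (x₂ + e), by ring⟩
        · rw [if_neg c1, if_neg c2, if_neg c3]
          exact ⟨y₁ + l * (-e - x₁), by linear_combination h0⟩

/-- a point of order two has `y = 0` -/
theorem two_torsion (h : IsForm W e f g) (P : W.Point) (hP : P + P = 0) :
    P = 0 ∨ ∃ x, ∃ hx : W.Nonsingular x 0, P = .some x 0 hx ∧
      (x + e) * (x + f) * (x + g) = 0 := by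
  rcases P with _ | ⟨x, y, hxy⟩
  · left; rfl
  · right
    have h1 : y = 0 := by
      by_contra hy
      have h2 : y ≠ W.negY x y := by
        rw [h.negY]
        intro h3
        apply hy
        linarith
      rw [WeierstrassCurve.Affine.Point.add_self_of_Y_ne h2] at hP
      exact WeierstrassCurve.Affine.Point.some_ne_zero _ hP
    subst h1
    refine ⟨x, hxy, rfl, ?_⟩
    have h4 := (h.eq_iff x 0).mp hxy.1
    rw [← h4]
    norm_num

end Pool.Agent.Lib.MP_808c84_nt
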