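import Mathlib
import Pool.Agent.Lib.MP_808c84_nt.Classes
import Pool.Agent.Lib.MP_808c84_nt.Desc

/-!
The rank of the curves with odd index.
-/

set_option autoImplicit false

namespace Pool.Agent.Lib.MP_808c84_nt

/-- independence from descent -/
theorem indep_of_descent {G : Type*} [AddCommGroup G] (P R : G) (T : Set G)
    (htors : ∀ S, S + S = 0 → S ∈ T)
    (hdes : ∀ t ∈ T, ∀ S, ∀ ε₁ ε₂ : ℤ, (ε₁ = 0 ∨ ε₁ = 1) → (ε₂ = 0 ∨ ε₂ = 1) →
      ε₁ • P + ε₂ • R + t = S + S → ε₁ = 0 ∧ ε₂ = 0 ∧ t = 0) (n m : ℤ)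
    (h : n • P + m • R = 0) : n = 0 ∧ m = 0 := by
  have key : ∀ N : ℕ, ∀ n m : ℤ, n.natAbs + m.natAbs ≤ N → ∀ t ∈ T, n • P + m • R + t = 0 →
      n = 0 ∧ m = 0 := by
    intro N
    induction N with
    | zero =>
      intro n m hN t _ _
      omega
    | succ N ih =>
      intro n m hN t ht h
      have hn : n = 2 * (n / 2) + n % 2 := by omega
      have hm : m = 2 * (m / 2) + m % 2 := by omega
      have h1 : (n % 2) • P + (m % 2) • R + t =
          -((n / 2) • P + (m / 2) • R) + -((n / 2) • P + (m / 2) • R) := by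
        have h2 : n • P + m • R + t = (n % 2) • P + (m % 2) • R + t +
            (((n / 2) • P + (m / 2) • R) + ((n / 2) • P + (m / 2) • R)) := by
          conv_lhs => rw [hn, hm]
          rw [add_smul, add_smul, two_mul, two_mul, add_smul, add_smul]
          abel
        rw [h] at h2
        have h3 := h2.symm
        rw [add_eq_zero_iff_eq_neg] at h3
        rw [h3]
        abel
      obtain ⟨e1, e2, e3⟩ := hdes t ht _ (n % 2) (m % 2) (by omega) (by omega) h1
      have h4 : ((n / 2) • P + (m / 2) • R) + ((n / 2) • P + (m / 2) • R) = 0 := by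
        rw [e1, e2, e3] at h1
        simp only [zero_smul, add_zero] at h1
        have h5 := congrArg Neg.neg h1
        rw [neg_zero] at h5
        rw [h5]
        abel
      have h6 := htors _ h4
      have h7 := ih (n / 2) (m / 2)
      by_cases h8 : (n / 2) = 0 ∧ (m / 2) = 0
      · omega
      · have h9 := h7 (by omega) _ h6 h4
        exact absurd h9 h8
  have h0 : (0 : G) ∈ T := htors 0 (add_zero 0)
  exact key _ n m le_rfl 0 h0 (by rw [add_zero]; exact h)

/-- the curve `Y² = (X + e)(X + f)(X + g)` -/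
def crv (e f g : ℚ) : WeierstrassCurve.Affine ℚ :=
  { a₁ := 0, a₂ := e + f + g, a₃ := 0, a₄ := e * f + e * g + f * g, a₆ := e * f * g }

theorem crv_form (e f g : ℚ) : IsForm (crv e f g) e f g := ⟨rfl, rfl, rfl, rfl, rfl⟩

theorem crv_form' (e f g : ℚ) : IsForm (crv e f g) g e f :=
  ⟨rfl, rfl, by simp only [crv]; ring, by simp only [crv]; ring, by simp only [crv]; ring⟩

theorem crv_elliptic {e f g : ℚ} (h1 : e ≠ f) (h2 : e ≠ g) (h3 : f ≠ g) :
    (crv e f g).IsElliptic := by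
  constructor
  have hD : (crv e f g).Δ = 16 * ((e - f) * (e - g) * (f - g)) ^ 2 := by
    simp only [crv, WeierstrassCurve.Δ, WeierstrassCurve.b₂, WeierstrassCurve.b₄,
      WeierstrassCurve.b₆, WeierstrassCurve.b₈]
    ring
  rw [hD, isUnit_iff_ne_zero]
  have := sub_ne_zero.mpr h1
  have := sub_ne_zero.mpr h2
  have := sub_ne_zero.mpr h3
  positivity

theorem not_sq_neg {q : ℚ} (h : q < 0) : ¬ IsSquare q := by
  rintro ⟨r, hr⟩
  nlinarith [mul_self_nonneg r]

theorem not_sq_cast {n : ℕ} (hn : ¬ IsSquare n) {q r : ℚ} (hr : r ≠ 0) (h : q = r ^ 2 * n) :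
    ¬ IsSquare q := by
  rintro ⟨s, hs⟩
  apply hn
  rw [← Rat.isSquare_natCast_iff]
  refine ⟨s / r, ?_⟩
  have : (n : ℚ) = q / r ^ 2 := by rw [h]; field_simp
  rw [this, hs]
  ring

theorem sq_double {W : WeierstrassCurve.Affine ℚ} {e f g : ℚ} (h : IsForm W e f g) (hef : e ≠ f)
    (heg : e ≠ g) (S : W.Point) : IsSquare (dd e f g (S + S)) := by
  obtain ⟨z, hz⟩ := dd_add h S S
  have h0 := dd_ne hef heg S
  refine ⟨z / dd e f g S, ?_⟩
  have : dd e f g (S + S) = z * z / (dd e f g S * dd e f g S) := by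
    rw [← hz]
    field_simp
  rw [this]
  ring

theorem sq_triple {W : WeierstrassCurve.Affine ℚ} {e f g : ℚ} (h : IsForm W e f g) (hef : e ≠ f)
    (heg : e ≠ g) {A B C S : W.Point} (hS : A + B + C = S + S) :
    IsSquare (dd e f g A * dd e f g B * dd e f g C) := by
  obtain ⟨z1, hz1⟩ := dd_add h A B
  obtain ⟨z2, hz2⟩ := dd_add h (A + B) C
  obtain ⟨z3, hz3⟩ := sq_double h hef heg S
  rw [← hS] at hz3
  have h1 := dd_ne hef heg (A + B)
  have h2 := dd_ne hef heg (A + B + C)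
  refine ⟨z1 * z2 * z3 / (dd e f g (A + B) * dd e f g (A + B + C)), ?_⟩
  have e1 : dd e f g A * dd e f g B * dd e f g C =
      (z1 * z1) * (z2 * z2) * (z3 * z3) / (dd e f g (A + B) * dd e f g (A + B + C)) ^ 2 := by
    rw [← hz1, ← hz2, ← hz3]
    field_simp
  rw [e1]
  ring

/-- the data attached to an odd index -/
structure Dat where
  k : ℕ
  odd : Odd k
  three : 3 ≤ k

namespace Dat

variable (D : Dat)

def F : ℚ := Nat.fib D.k
def F1 : ℚ := Nat.fib (D.k + 1)
def A : ℚ := Nat.fib (2 * D.k)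
def B : ℚ := Nat.fib (2 * D.k + 2)
def C : ℚ := Nat.fib (2 * D.k + 4)
def V : ℚ := Nat.fib (2 * D.k + 3)
def Lam : ℚ := luc (2 * D.k + 2)
def L : ℚ := luc D.k
def L1 : ℚ := luc (D.k + 1)

theorem hrel : D.F1 ^ 2 - D.F1 * D.F - D.F ^ 2 = -1 := by
  have h := rel D.odd
  unfold F F1
  exact_mod_cast h

theorem hL : D.L = 2 * D.F1 - D.F := by
  have h := luc_int D.k
  unfold L F F1
  exact_mod_cast h

theorem hL1 : D.L1 = D.F1 + 2 * D.F := by
  have h := luc_succ_int D.k
  unfold L1 F F1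
  exact_mod_cast h

theorem hLam : D.Lam = 2 * D.F ^ 2 + 3 * D.F1 ^ 2 + 2 * D.F * D.F1 := by
  have h := lam_int (k := D.k)
  unfold Lam F F1
  exact_mod_cast h

theorem hA : D.A = D.F * D.L := by
  unfold A F L
  exact_mod_cast fib_two_mul_eq D.k

theorem hB : D.B = D.F1 * D.L1 := by
  unfold B F1 L1
  have := fib_two_mul_eq (D.k + 1)
  rw [show 2 * (D.k + 1) = 2 * D.k + 2 by ring] at this
  exact_mod_cast this

theorem hV : D.V = D.F1 ^ 2 + (D.F + D.F1) ^ 2 := by
  have h := fib_two_mul_add_one_int (D.k + 1)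
  rw [show 2 * (D.k + 1) + 1 = 2 * D.k + 3 by ring] at h
  have h2 : (Nat.fib (D.k + 1 + 1) : ℤ) = Nat.fib D.k + Nat.fib (D.k + 1) := by
    exact_mod_cast Nat.fib_add_two (n := D.k)
  rw [h2] at h
  unfold V F F1
  have h3 : (Nat.fib (2 * D.k + 3) : ℤ) = (Nat.fib (D.k + 1) : ℤ) ^ 2 +
      (Nat.fib D.k + Nat.fib (D.k + 1) : ℤ) ^ 2 := by linarith
  exact_mod_cast h3

theorem hCB : D.C = D.B + D.V := by
  unfold C B V
  exact_mod_cast Nat.fib_add_two (n := 2 * D.k + 2)

theorem hB' : D.B = D.F1 * (D.F1 + 2 * D.F) := by rw [D.hB, D.hL1]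

theorem hA' : D.A = D.F * (2 * D.F1 - D.F) := by rw [D.hA, D.hL]

theorem hC' : D.C = (D.F + D.F1) * (3 * D.F1 + D.F) := by
  rw [D.hCB, D.hB', D.hV]; ring

theorem hCA : D.C = D.A + D.Lam := by
  rw [D.hC', D.hA', D.hLam]; ring

theorem F_pos : 0 < D.F := by
  unfold F
  have := D.three
  exact_mod_cast Nat.fib_pos.mpr (by omega)

theorem F1_pos : 0 < D.F1 := by
  unfold F1
  exact_mod_cast Nat.fib_pos.mpr (by omega)

theorem V_pos : 0 < D.V := by
  unfold V
  exact_mod_cast Nat.fib_pos.mpr (by omega)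

theorem Lam_pos : 0 < D.Lam := by
  rw [D.hLam]
  have := D.F_pos
  have := D.F1_pos
  positivity

theorem A_pos : 0 < D.A := by
  unfold A
  have := D.three
  exact_mod_cast Nat.fib_pos.mpr (by omega)

theorem L_pos : 0 < D.L := by
  have h1 := D.A_pos
  rw [D.hA] at h1
  exact (mul_pos_iff_of_pos_left D.F_pos).mp h1

theorem L1_pos : 0 < D.L1 := by
  rw [D.hL1]
  have := D.F_pos
  have := D.F1_pos
  positivity

theorem B_pos : 0 < D.B := by
  rw [D.hB]
  exact mul_pos D.F1_pos D.L1_pos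

theorem C_pos : 0 < D.C := by
  rw [D.hCB]
  exact add_pos D.B_pos D.V_pos

theorem hBA : D.B = D.A + (D.F ^ 2 + D.F1 ^ 2) := by
  rw [D.hB', D.hA']; ring

def e : ℚ := D.A * D.B
def f : ℚ := D.A * D.C
def g : ℚ := D.B * D.C

theorem ef : D.e < D.f := by
  unfold e f
  apply mul_lt_mul_of_pos_left _ D.A_pos
  rw [D.hCB]
  linarith [D.V_pos]

theorem fg : D.f < D.g := by
  unfold f g
  apply mul_lt_mul_of_pos_right _ D.C_pos
  rw [D.hBA]
  have := D.F_pos
  have := D.F1_pos
  nlinarith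

theorem eg : D.e < D.g := D.ef.trans D.fg

abbrev W : WeierstrassCurve.Affine ℚ := crv D.e D.f D.g

instance : D.W.IsElliptic := crv_elliptic D.ef.ne D.eg.ne D.fg.ne

theorem eq_iff (x y : ℚ) : D.W.Equation x y ↔ y ^ 2 = (x + D.e) * (x + D.f) * (x + D.g) :=
  (crv_form _ _ _).eq_iff x y

theorem ns_of {x y : ℚ} (h : y ^ 2 = (x + D.e) * (x + D.f) * (x + D.g)) :
    D.W.Nonsingular x y :=
  (WeierstrassCurve.Affine.equation_iff_nonsingular).mp ((D.eq_iff x y).mpr h)

def XR : ℚ := -(D.A * D.C) - D.F * (D.F + D.F1)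
def YR : ℚ := D.F * D.F1 * (D.F + D.F1) * D.Lam

theorem XR_e : D.XR + D.e = -(D.F * D.F1 * D.Lam) := by
  unfold XR e
  rw [D.hA', D.hB', D.hC', D.hLam]
  linear_combination (-D.F * (D.F + D.F1)) * D.hrel

theorem XR_f : D.XR + D.f = -(D.F * (D.F + D.F1)) := by
  unfold XR f
  ring

theorem XR_g : D.XR + D.g = (D.F + D.F1) * D.F1 * D.Lam := by
  unfold XR g
  rw [D.hA', D.hB', D.hC', D.hLam]
  linear_combination (-D.F * (D.F + D.F1)) * D.hrel

theorem nsP : D.W.Nonsingular 0 (D.A * D.B * D.C) := by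
  apply D.ns_of
  unfold e f g
  ring

theorem nsR : D.W.Nonsingular D.XR D.YR := by
  apply D.ns_of
  rw [D.XR_e, D.XR_f, D.XR_g]
  unfold YR
  ring

theorem nse : D.W.Nonsingular (-D.e) 0 := by apply D.ns_of; ring
theorem nsf : D.W.Nonsingular (-D.f) 0 := by apply D.ns_of; ring
theorem nsg : D.W.Nonsingular (-D.g) 0 := by apply D.ns_of; ring

def P : D.W.Point := .some _ _ D.nsP
def R : D.W.Point := .some _ _ D.nsR
def Te : D.W.Point := .some _ _ D.nse
def Tf : D.W.Point := .some _ _ D.nsf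
def Tg : D.W.Point := .some _ _ D.nsg

theorem dP : dd D.e D.f D.g D.P = D.A * D.B := by
  have h1 : D.A * D.B ≠ 0 := (mul_pos D.A_pos D.B_pos).ne'
  have h2 : (0 : ℚ) + D.e ≠ 0 := by
    rw [zero_add]
    exact h1
  unfold P
  rw [dd_some, if_neg h2, zero_add]
  rfl

theorem dR : dd D.e D.f D.g D.R = -(D.F * D.F1 * D.Lam) := by
  have h1 : -(D.F * D.F1 * D.Lam) ≠ 0 :=
    neg_ne_zero.mpr (mul_pos (mul_pos D.F_pos D.F1_pos) D.Lam_pos).ne'
  unfold R
  rw [dd_some, D.XR_e, if_neg h1]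

theorem dTe : dd D.e D.f D.g D.Te = D.A * D.V * (D.B * D.Lam) := by
  unfold Te
  rw [dd_some, if_pos (by ring)]
  have h1 : D.f - D.e = D.A * D.V := by
    unfold e f
    rw [D.hCB]; ring
  have h2 : D.g - D.e = D.B * D.Lam := by
    unfold e g
    rw [D.hCA]; ring
  rw [h1, h2]

theorem dTf : dd D.e D.f D.g D.Tf = -(D.A * D.V) := by
  have h1 : -D.f + D.e = -(D.A * D.V) := by
    unfold e f
    rw [D.hCB]; ring
  have h2 : -(D.A * D.V) ≠ 0 := neg_ne_zero.mpr (mul_pos D.A_pos D.V_pos).ne'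
  unfold Tf
  rw [dd_some, h1, if_neg h2]

theorem dTg : dd D.e D.f D.g D.Tg = -(D.B * D.Lam) := by
  have h1 : -D.g + D.e = -(D.B * D.Lam) := by
    unfold e g
    rw [D.hCA]; ring
  have h2 : -(D.B * D.Lam) ≠ 0 := neg_ne_zero.mpr (mul_pos D.B_pos D.Lam_pos).ne'
  unfold Tg
  rw [dd_some, h1, if_neg h2]

/-- the second coordinate of the descent at `Te` -/
theorem dTe' : dd D.g D.e D.f D.Te = D.B * D.Lam := by
  have h1 : -D.e + D.g = D.B * D.Lam := by
    unfold e g
    rw [D.hCA]; ring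
  have h2 : D.B * D.Lam ≠ 0 := (mul_pos D.B_pos D.Lam_pos).ne'
  unfold Te
  rw [dd_some, h1, if_neg h2]

theorem tors (S : D.W.Point) (h : S + S = 0) : S ∈ ({0, D.Te, D.Tf, D.Tg} : Set D.W.Point) := by
  rcases two_torsion (crv_form _ _ _) S h with h | ⟨x, hx, h1, h2⟩
  · left; exact h
  · right
    rcases mul_eq_zero.mp h2 with h3 | h3
    · rcases mul_eq_zero.mp h3 with h4 | h4
      · left
        have : x = -D.e := by linarith
        subst this
        exact h1
      · right; left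
        have : x = -D.f := by linarith
        subst this
        exact h1
    · right; right
      have : x = -D.g := by linarith
      subst this
      exact h1

theorem des : ∀ t ∈ ({0, D.Te, D.Tf, D.Tg} : Set D.W.Point), ∀ S, ∀ ε₁ ε₂ : ℤ,
    (ε₁ = 0 ∨ ε₁ = 1) → (ε₂ = 0 ∨ ε₂ = 1) →
      ε₁ • D.P + ε₂ • D.R + t = S + S → ε₁ = 0 ∧ ε₂ = 0 ∧ t = 0 := by
  intro t ht S ε₁ ε₂ h1 h2 h
  have hsq := sq_triple (crv_form _ _ _) D.ef.ne D.eg.ne h
  have pA := D.A_pos
  have pB := D.B_pos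
  have pV := D.V_pos
  have pF := D.F_pos
  have pF1 := D.F1_pos
  have pLam := D.Lam_pos
  have pL := D.L_pos
  have pL1 := D.L1_pos
  rcases ht with rfl | rfl | rfl | ht
  · -- t = 0
    rcases h1 with rfl | rfl <;> rcases h2 with rfl | rfl
    · exact ⟨rfl, rfl, rfl⟩
    · exfalso
      rw [zero_zsmul, one_zsmul, dd_zero, D.dR] at hsq
      refine not_sq_neg ?_ hsq
      have : 0 < D.F * D.F1 * D.Lam := by positivity
      linarith
    · exfalso
      rw [zero_zsmul, one_zsmul, dd_zero, D.dP] at hsq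
      refine not_sq_cast (C1 D.odd) one_ne_zero ?_ hsq
      unfold A B
      push_cast
      ring
    · exfalso
      rw [one_zsmul, one_zsmul, dd_zero, D.dP, D.dR] at hsq
      refine not_sq_neg ?_ hsq
      have : 0 < D.A * D.B * (D.F * D.F1 * D.Lam) := by positivity
      linarith
  · -- t = Te
    exfalso
    rcases h1 with rfl | rfl <;> rcases h2 with rfl | rfl
    · have hsq2 := sq_triple (crv_form' D.e D.f D.g) D.eg.ne' D.fg.ne' h
      rw [zero_zsmul, zero_zsmul, dd_zero, D.dTe'] at hsq2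
      refine not_sq_cast (C2 D.odd) one_ne_zero ?_ hsq2
      unfold B Lam
      push_cast
      ring
    · rw [zero_zsmul, one_zsmul, dd_zero, D.dR, D.dTe] at hsq
      refine not_sq_neg ?_ hsq
      have : 0 < D.F * D.F1 * D.Lam * (D.A * D.V * (D.B * D.Lam)) := by positivity
      linarith
    · rw [zero_zsmul, one_zsmul, dd_zero, D.dP, D.dTe] at hsq
      refine not_sq_cast (C3 D.odd) (r := D.A * D.B) (by positivity) ?_ hsq
      unfold V Lam
      push_cast
      ring
    · rw [one_zsmul, one_zsmul, D.dP, D.dR, D.dTe] at hsq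
      refine not_sq_neg ?_ hsq
      have : 0 < D.A * D.B * (D.F * D.F1 * D.Lam) * (D.A * D.V * (D.B * D.Lam)) := by positivity
      linarith
  · -- t = Tf
    exfalso
    rcases h1 with rfl | rfl <;> rcases h2 with rfl | rfl
    · rw [zero_zsmul, zero_zsmul, dd_zero, D.dTf] at hsq
      refine not_sq_neg ?_ hsq
      have : 0 < D.A * D.V := by positivity
      linarith
    · rw [zero_zsmul, one_zsmul, dd_zero, D.dR, D.dTf] at hsq
      refine not_sq_cast (C4 D.odd) (r := D.F) (by positivity) ?_ hsq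
      rw [D.hA]
      unfold V Lam L F1
      push_cast
      ring
    · rw [zero_zsmul, one_zsmul, dd_zero, D.dP, D.dTf] at hsq
      refine not_sq_neg ?_ hsq
      have : 0 < D.A * D.B * (D.A * D.V) := by positivity
      linarith
    · rw [one_zsmul, one_zsmul, D.dP, D.dR, D.dTf] at hsq
      refine not_sq_cast (C5 D.odd) (r := D.F * D.F1 * D.L) (by positivity) ?_ hsq
      have h5 : D.A * D.B * -(D.F * D.F1 * D.Lam) * -(D.A * D.V) =
          (D.F * D.F1 * D.L) ^ 2 * (D.L1 * D.F * D.V * D.Lam) := by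
        rw [D.hA, D.hB]
        ring
      rw [h5]
      unfold V Lam L1 F
      push_cast
      rfl
  · -- t = Tg
    rw [Set.mem_singleton_iff] at ht
    subst ht
    exfalso
    rcases h1 with rfl | rfl <;> rcases h2 with rfl | rfl
    · rw [zero_zsmul, zero_zsmul, dd_zero, D.dTg] at hsq
      refine not_sq_neg ?_ hsq
      have : 0 < D.B * D.Lam := by positivity
      linarith
    · rw [zero_zsmul, one_zsmul, dd_zero, D.dR, D.dTg] at hsq
      refine not_sq_cast (C6 D.odd) (r := D.F1 * D.Lam) (by positivity) ?_ hsq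
      have h5 : 1 * -(D.F * D.F1 * D.Lam) * -(D.B * D.Lam) =
          (D.F1 * D.Lam) ^ 2 * (D.F * D.L1) := by
        rw [D.hB]
        ring
      rw [h5]
      unfold L1 F
      push_cast
      rfl
    · rw [zero_zsmul, one_zsmul, dd_zero, D.dP, D.dTg] at hsq
      refine not_sq_neg ?_ hsq
      have : 0 < D.A * D.B * (D.B * D.Lam) := by positivity
      linarith
    · rw [one_zsmul, one_zsmul, D.dP, D.dR, D.dTg] at hsq
      refine not_sq_cast (C7 D.odd D.three) (r := D.F * D.F1 * D.Lam * D.L1) (by positivity) ?_ hsq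
      have h5 : D.A * D.B * -(D.F * D.F1 * D.Lam) * -(D.B * D.Lam) =
          (D.F * D.F1 * D.Lam * D.L1) ^ 2 * (D.L * D.F1) := by
        rw [D.hA, D.hB]
        ring
      rw [h5]
      unfold L F1
      push_cast
      rfl

theorem indep : LinearIndependent ℤ ![D.P, D.R] := by
  rw [LinearIndependent.pair_iff]
  intro n m h
  exact indep_of_descent D.P D.R _ D.tors D.des n m h

end Dat

end Pool.Agent.Lib.MP_808c84_nt
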